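import Mathlib
import Pool.Agent.X1.NfaPow

/-!
# Small automata and the digits of `p ^ n` in base `q`

Let `p, q ≥ 2` be coprime, for instance different primes.  Let `ε, δ > 0` and let `K` be given.  For
all large `n` and every window of `L ≥ ε n` consecutive places of the expansion of `p ^ n` in base
`q`: a nondeterministic automaton with at most `L^(1-δ)` states which accepts the word of the digits
in the window, read from the left or from the right, or a word which differs from it in at most `K`
places, accepts at least `L ^ K` words of length `L`.  In particular the nondeterministic automatic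
complexity of these words is `L ^ (1 - o(1))`.  The same holds for all multiples `m` of `p ^ n` with
`0 < m ≤ p ^ ((1 + η) n)`, where `η > 0` depends on `ε`, `δ` and `K`.
-/

set_option autoImplicit false

namespace Pool.Agent.Results.MP_b08cb4_nt.AcceptedWordsOfPowers

open Finset

/-- the `i`-th digit of `m` in base `q`, counted from the right, starting with `i = 0` -/
def digit (q m i : ℕ) : ℕ := m / q ^ i % q

/-- the number (possibly infinite, since the alphabet is `ℕ`) of words of length `L` accepted by the
automaton -/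
noncomputable def numAccepted {σ : Type} (M : NFA ℕ σ) (L : ℕ) : ℕ∞ :=
  {w : List ℕ | w ∈ M.accepts ∧ w.length = L}.encard

/-- Let `p, q ≥ 2` be coprime, `ε, δ > 0` and `K` a natural number.  There are `η > 0` and `n₀` such
that for all `n ≥ n₀` and all positive multiples `m` of `p ^ n` with `m ≤ p ^ ((1 + η) n)` (for
instance `m = p ^ n`) the following holds.  Let `t, …, t + L - 1` be `L ≥ ε n` consecutive places
of the base `q` expansion of `m` and let `y 0, …, y (L - 1)` be the digits at these places, read
from the right or from the left.  Every nondeterministic finite automaton with at most `L^(1-δ)`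
states which accepts a word `d 0, …, d (L - 1)` with `d i ≠ y i` for at most `K` of the `i < L`
accepts at least `L ^ K` words of length `L`. -/
theorem result (p q : ℕ) (hp : 2 ≤ p) (hq : 2 ≤ q) (hpq : p.Coprime q) (ε δ : ℝ) (hε : 0 < ε)
    (hδ : 0 < δ) (K : ℕ) : ∃ η : ℝ, 0 < η ∧ ∃ n₀ : ℕ, ∀ n m t L : ℕ, n₀ ≤ n → p ^ n ∣ m → 0 < m →
      (m : ℝ) ≤ (p : ℝ) ^ ((1 + η) * n) → t + L ≤ (Nat.digits q m).length → ε * n ≤ L →
      ∀ y : ℕ → ℕ,
      ((∀ i, i < L → y i = digit q m (t + i)) ∨
        (∀ i, i < L → y i = digit q m (t + (L - 1 - i)))) →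
      ∀ (σ : Type) [Fintype σ] (M : NFA ℕ σ), (Fintype.card σ : ℝ) ≤ (L : ℝ) ^ (1 - δ) →
      ∀ d : ℕ → ℕ, ((range L).filter fun i => d i ≠ y i).card ≤ K →
      (List.range L).map d ∈ M.accepts →
      ((L ^ K : ℕ) : ℕ∞) ≤ numAccepted M L := by
  obtain ⟨η, hη, n₀, h⟩ := Pool.Agent.X1.NfaAlg.pow_words hp hq hpq hε hδ K
  refine ⟨η, hη, n₀, fun n m t L hn hdvd hm hmη htL hεL y hy σ _ M hq' d hd hacc => ?_⟩
  obtain ⟨W, hW1, hW2⟩ := h n m t L hn hdvd hm hmη htL hεL y hy σ M hq' d hd hacc
  calc ((L ^ K : ℕ) : ℕ∞) ≤ (W.card : ℕ∞) := by exact_mod_cast hW2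
    _ = ((W : Set (List ℕ))).encard := (Set.encard_coe_eq_coe_finsetCard W).symm
    _ ≤ numAccepted M L := Set.encard_le_encard fun w hw => ⟨(hW1 w hw).2, (hW1 w hw).1⟩

end Pool.Agent.Results.MP_b08cb4_nt.AcceptedWordsOfPowers
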