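import Mathlib
import Pool.Agent.X2.AdicPowers

/-!
# The `q`-adic complexity of windows of digits of `p ^ n` in base `q`

No hypothesis is assumed.  Let `p, q ≥ 2` be coprime (for example different primes) and `u ≥ 1`.  For
every `ε > 0` there is `C` such that for all `n` and all windows of `k` consecutive places of the base
`q` expansion of `u p ^ n` the `q`-adic complexity of the word of the `k` digits in the window, read
from the right, differs from `k / 2` by at most `ε n + C`.

So all windows of length `k ≥ δ n` have the complexity `(1 / 2 + o(1)) k` of random words, and the `k`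
digits are never the first `k` digits of the `q`-adic expansion of a rational number whose numerator
and denominator are less than `q ^ ((1 / 2 - ε) k)`.
-/

set_option autoImplicit false

namespace Pool.Agent.Results.MP_b08cb4_nt.AdicComplexityOfPowers

open Finset

/-- the `i`-th digit of `N` in base `q`, counted from the right, starting with `i = 0` -/
def digit (q N i : ℕ) : ℕ := N / q ^ i % q

/-- the digits of `N` at the places `s, s + 1, …` -/
def window (q N s : ℕ) : ℕ → ℤ := fun i => (digit q N (s + i) : ℤ)

/-- the least `M` such that the `q`-adic expansion of some rational number `f / g`, with `g > 0` prime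
to `q` and `|f| ≤ M`, `g ≤ M`, begins with the letters `c 0, c 1, …, c (k - 1)`, that is
`f / g ≡ ∑_{i < k} c i q ^ i` modulo `q ^ k` -/
noncomputable def size (q k : ℕ) (c : ℕ → ℤ) : ℕ :=
  sInf {M : ℕ | ∃ f g : ℤ, 0 < g ∧ Int.gcd g q = 1 ∧
    (q : ℤ) ^ k ∣ g * (∑ i ∈ range k, c i * (q : ℤ) ^ i) - f ∧ |f| ≤ M ∧ g ≤ M}

/-- the `q`-adic complexity of the word `c 0, c 1, …, c (k - 1)` -/
noncomputable def adicComplexity (q k : ℕ) (c : ℕ → ℤ) : ℝ := Real.logb q (size q k c)

/-- All windows of the base `q` expansions of the numbers `u p ^ n` have `q`-adic complexity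
`k / 2 + o(n)`. -/
theorem result (p q : ℕ) (hp : 2 ≤ p) (hq : 2 ≤ q) (hpq : p.Coprime q) (u : ℕ) (hu : 1 ≤ u)
    (ε : ℝ) (hε : 0 < ε) :
    ∃ C : ℝ, ∀ n s k : ℕ, q ^ (s + k) ≤ u * p ^ n →
      |adicComplexity q k (window q (u * p ^ n) s) - k / 2| ≤ ε * n + C :=
  Pool.Agent.X2.AdicPowers.powers hq hp hpq.symm u hu ε hε

end Pool.Agent.Results.MP_b08cb4_nt.AdicComplexityOfPowers
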