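import Pool.Agent.Results.MP_b08cb4_nt.LowestDigits
import Pool.Agent.X174.WinN

/-!
# The lowest digits of `l p ^ n` for ALL `n` in windows around thin sequences

Let `q` be a prime, `p ≥ 2` an integer prime to `q`, `k ≥ 1` and `C, ε > 0`. There is `0 < c < 1` such that for every
sequence `v ≥ 1` of exponent of convergence at most `τ` (for `v_i = i ^ a` this is `1 / a`, for `v_i = b ^ i` it is `0`)
and `θ < 1`, outside a set of `α > 0` of Hausdorff dimension at most `(1 - c + τ) / (1 - θ)`, for ALL `l` prime to `q`,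
all but finitely many `i` and ALL integers `n ≥ 1` with `|n - α v_i| ≤ v_i ^ θ` all blocks of `k` digits have the right
frequency among the lowest `m` base `q` digits of `l p ^ n`, up to an error `ε log n` in the number of occurrences, for
all `m ≤ C log n`.

The number of exceptions is from the starting result `LowestDigits`, the passage to windows from the starting module
`Pool.Agent.Y854.GM.Win`.
-/

set_option autoImplicit false

namespace Pool.Agent.Results.MP_b08cb4_nt.FrequenciesInWindows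

open Finset
open Pool.Agent.X174 (winN cumN)

/-- the exponent of convergence of the sequence `v` is at most `τ` -/
def ExpLe (v : ℕ → ℝ) (τ : ℝ) : Prop := ∀ t : ℝ, τ < t → Summable (fun n : ℕ => (v n) ^ (-t))

open Classical in
/-- **Theorem.** Let `q` be a prime, `p ≥ 2` an integer prime to `q`, `k ≥ 1` and `C, ε > 0`. There is `0 < c < 1` such
that for every sequence `v ≥ 1` of exponent of convergence at most `τ ≥ 0` and every `θ < 1` there is a set `E` of
Hausdorff dimension at most `(1 - c + τ) / (1 - θ)` such that for each `α > 0` outside `E` and every `l` prime to `q`, for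
all but finitely many `i` and ALL integers `n ≥ 1` with `|n - α v_i| ≤ v_i ^ θ`, for all `m ≤ C log n` and all
`a < q ^ k`: the number of the places `j < m` such that the base `q` digits of `l p ^ n` at the places
`j, …, j + k - 1` are those of `a` differs from `m / q ^ k` by at most `ε log n`. The sequences `v_i = (i + 1) ^ a` and
`v_i = b ^ i` have exponent of convergence at most `1 / a` and `0`. -/
theorem result :
    (∀ q p k : ℕ, q.Prime → 2 ≤ p → ¬ q ∣ p → 1 ≤ k → ∀ C ε : ℝ, 0 < C → 0 < ε →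
      ∃ c : ℝ, 0 < c ∧ c < 1 ∧
      ∀ (v : ℕ → ℝ) (τ θ : ℝ), (∀ i, 1 ≤ v i) → 0 ≤ τ → ExpLe v τ → θ < 1 →
      ∃ E : Set ℝ, dimH E ≤ ENNReal.ofReal ((1 - c + τ) / (1 - θ)) ∧
        ∀ α : ℝ, 0 < α → α ∉ E → ∀ l : ℕ, ¬ q ∣ l → ∃ i₀ : ℕ, ∀ i : ℕ, i₀ ≤ i →
          ∀ n : ℕ, 1 ≤ n → |(n : ℝ) - α * v i| ≤ (v i) ^ θ →
            ∀ m : ℕ, (m : ℝ) ≤ C * Real.log n → ∀ a < q ^ k,
              |(((range m).filter (fun j => l * p ^ n / q ^ j % q ^ k = a)).card : ℝ) - m / (q : ℝ) ^ k| ≤
                ε * Real.log n) ∧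
    (∀ a : ℝ, 0 < a → ExpLe (fun n : ℕ => ((n : ℝ) + 1) ^ a) (1 / a)) ∧
    (∀ b : ℝ, 1 < b → ExpLe (fun n : ℕ => b ^ n) 0) := by
  refine ⟨fun q p k hq hp2 hp hk C ε hC hε => ?_, fun κ hκ => Pool.Agent.Y854.GM.expLe_pow κ hκ,
    fun b hb => Pool.Agent.Y854.GM.expLe_geom b hb⟩
  obtain ⟨c1, hc1, M0, h⟩ := LowestDigits.frequencies q p k hq hp2 hp hk C (ε / 2) hC (by positivity)
  set c : ℝ := min c1 (1 / 2) with hc
  have hc0 : 0 < c := lt_min hc1 (by norm_num)
  have hca : c ≤ c1 := min_le_left _ _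
  have hcb : c ≤ 1 / 2 := min_le_right _ _
  refine ⟨c, hc0, by linarith, fun v τ θ hv hτ hE hθ => ?_⟩
  have key : ∀ l : ℕ, ∃ E : Set ℝ, dimH E ≤ ENNReal.ofReal ((1 - c + τ) / (1 - θ)) ∧ (¬ q ∣ l →
        ∀ α : ℝ, 0 < α → α ∉ E → ∃ i₀ : ℕ, ∀ i : ℕ, i₀ ≤ i →
          ∀ n : ℕ, 1 ≤ n → |(n : ℝ) - α * v i| ≤ (v i) ^ θ → ¬ ¬
            ∀ m : ℕ, (m : ℝ) ≤ C * Real.log n → ∀ a < q ^ k,
              |(((range m).filter (fun j => l * p ^ n / q ^ j % q ^ k = a)).card : ℝ) - m / (q : ℝ) ^ k| ≤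
                ε * Real.log n) := by
    intro l
    by_cases hl : q ∣ l
    · exact ⟨∅, by simp, fun h' => absurd hl h'⟩
    obtain ⟨B, hB, hcount⟩ := cumN (fun n : ℕ => ¬ ∀ m : ℕ, (m : ℝ) ≤ C * Real.log n → ∀ a < q ^ k,
              |(((range m).filter (fun j => l * p ^ n / q ^ j % q ^ k = a)).card : ℝ) - m / (q : ℝ) ^ k| ≤
                ε * Real.log n) (1 - c) 3 (by linarith) (by norm_num) (M0 + 2) (fun K hK => by
      have hK2 : (2 : ℝ) ≤ K := by exact_mod_cast (by omega : 2 ≤ K)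
      have hKp : (0 : ℝ) < K := by linarith
      have hcnt := h (2 * K + 1) (by omega) l hl
      have hsub : {n : ℕ | K < n ∧ n ≤ 2 * K ∧ ¬ ∀ m : ℕ, (m : ℝ) ≤ C * Real.log n → ∀ a < q ^ k,
              |(((range m).filter (fun j => l * p ^ n / q ^ j % q ^ k = a)).card : ℝ) - m / (q : ℝ) ^ k| ≤
                ε * Real.log n} ⊆ (((range (2 * K + 1)).filter (fun n => ¬ ∀ m : ℕ,
              (m : ℝ) ≤ C * Real.log ((2 * K + 1 : ℕ) : ℝ) → ∀ a < q ^ k,
              |(((range m).filter (fun i => l * p ^ n / q ^ i % q ^ k = a)).card : ℝ) - m / (q : ℝ) ^ k| ≤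
                ε / 2 * Real.log ((2 * K + 1 : ℕ) : ℝ)) : Finset ℕ) : Set ℕ) := by
        rintro n ⟨h1, h2, h3⟩
        rw [Finset.mem_coe, mem_filter, mem_range]
        refine ⟨by omega, fun h4 => h3 fun m hm a ha => ?_⟩
        have hn1 : (K : ℝ) + 1 ≤ n := by exact_mod_cast h1
        have hnp : (0 : ℝ) < n := by linarith
        have hM : ((2 * K + 1 : ℕ) : ℝ) = 2 * K + 1 := by push_cast; ring
        have hn2 : (n : ℝ) ≤ 2 * K := by exact_mod_cast h2
        have hlog1 : Real.log n ≤ Real.log ((2 * K + 1 : ℕ) : ℝ) :=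
          Real.log_le_log hnp (by rw [hM]; linarith)
        have hlog2 : Real.log ((2 * K + 1 : ℕ) : ℝ) ≤ 2 * Real.log n := by
          have h5 : Real.log ((n : ℝ) ^ 2) = 2 * Real.log n := by
            rw [Real.log_pow]
            push_cast
            ring
          rw [← h5]
          apply Real.log_le_log (by rw [hM]; positivity)
          rw [hM]
          nlinarith
        have h6 := h4 m (hm.trans (mul_le_mul_of_nonneg_left hlog1 hC.le)) a ha
        refine h6.trans ?_
        nlinarith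
      have h5 := Set.ncard_le_ncard hsub (Finset.finite_toSet _)
      rw [Set.ncard_coe_finset] at h5
      refine (Nat.cast_le.2 h5).trans ?_
      refine le_trans ?_ (hcnt.trans ?_)
      · apply le_of_eq
        congr!
      · calc ((2 * K + 1 : ℕ) : ℝ) ^ (1 - c1) ≤ ((2 * K + 1 : ℕ) : ℝ) ^ (1 - c) := by
              apply Real.rpow_le_rpow_of_exponent_le _ (by linarith)
              push_cast
              linarith
          _ ≤ (3 * (K : ℝ)) ^ (1 - c) := by
              apply Real.rpow_le_rpow (by positivity) _ (by linarith)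
              push_cast
              linarith
          _ = 3 ^ (1 - c) * (K : ℝ) ^ (1 - c) := Real.mul_rpow (by norm_num) hKp.le
          _ ≤ 3 * (K : ℝ) ^ (1 - c) := by
              apply mul_le_mul_of_nonneg_right _ (by positivity)
              calc (3 : ℝ) ^ (1 - c) ≤ 3 ^ (1 : ℝ) := Real.rpow_le_rpow_of_exponent_le (by norm_num) (by linarith)
                _ = 3 := Real.rpow_one 3)
    obtain ⟨E, h1, h2⟩ := winN _ hv hτ hE (by linarith : 0 ≤ 1 - c) hθ B hB hcount
    exact ⟨E, h1, fun _ => h2⟩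
  choose Es hEs1 hEs2 using key
  refine ⟨⋃ l, Es l, ?_, fun α hα hαE l hl => ?_⟩
  · rw [dimH_iUnion]
    exact iSup_le hEs1
  · obtain ⟨i₀, hi⟩ := hEs2 l hl α hα (fun hm => hαE (Set.mem_iUnion.2 ⟨_, hm⟩))
    exact ⟨i₀, fun i hi1 n hn hw => not_not.1 (hi i hi1 n hn hw)⟩

end Pool.Agent.Results.MP_b08cb4_nt.FrequenciesInWindows
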