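import Mathlib
import Pool.Agent.X121.GS.Base

/-!
# The digits of powers of a prime in a random base

For a random integer base `q` in a short interval the digits of `p ^ n` in base `q`, up to `n` about
`(log q) ^ (9 / 8)` and except for the boundedly many highest ones, are jointly close in total
variation to independent uniform digits.

The proof uses bounds for the exponential sums `∑_q e(p ^ n ∑_i h_i q ^ (-i - 1))` over the bases, by
a local approximation with polynomials of high degree and Vinogradov's mean value theorem with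
explicit constants, and trigonometric majorants.
-/

set_option autoImplicit false

open Real

namespace Pool.Agent.Results.MP_b08cb4_nt.RandomBase

/-- `a q ^ i ≤ A mod q ^ (i + 1) < (a + 1) q ^ i` for the `i`-th digit `a` of `A` in base `q`, and the
fractional part of `A / q ^ (i + 1)` is `(A mod q ^ (i + 1)) / q ^ (i + 1)`, the number
`0.a_i a_(i-1) … a_0` in base `q`. This is the index of the part of `[0, 1)` which contains it, when
`[0, 1)` is divided into `m` equal parts. -/
noncomputable def part (m q i : ℕ) (A : ℝ) : ℕ := ⌊(m : ℝ) * Int.fract (A / (q : ℝ) ^ (i + 1))⌋₊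

/-- **Digits in a random base.** Let `0 < η ≤ 1`. There is `Q₀` such that for all `Q ≥ Q₀` and
`Q ^ η ≤ H ≤ Q`, for every integer `A ≤ exp ((log Q) ^ (9 / 8))`, for example `A = p ^ n`, every `s` with
`Q ^ (s + 8 / η) ≤ A`, every `1 ≤ m ≤ exp ((log Q) ^ (1 / 8))` and every set `E` of `s`-tuples of numbers
less than `m`: the proportion of the bases `q ∈ (Q, Q + H]` such that the tuple of the numbers
`⌊m {A / q ^ (i + 1)}⌋`, `i < s`, is in `E` is `|E| / m ^ s` up to an error of at most
`exp (-(log Q) ^ (1 / 8))`. -/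
theorem result {η : ℝ} (hη : 0 < η) (hη1 : η ≤ 1) :
    ∃ Q₀ : ℕ, ∀ Q H : ℕ, Q₀ ≤ Q → (Q : ℝ) ^ η ≤ H → H ≤ Q → ∀ A s m : ℕ,
      (Q : ℝ) ^ (s + 8 / η) ≤ A → (A : ℝ) ≤ exp (log Q ^ (9 / 8 : ℝ)) → 1 ≤ m →
      (m : ℝ) ≤ exp (log Q ^ (1 / 8 : ℝ)) → ∀ E : Finset (Fin s → Fin m),
      |({q : ℕ | Q < q ∧ q ≤ Q + H ∧ ∃ w ∈ E, ∀ i : Fin s, part m q i A = w i}.ncard : ℝ) / H -
        E.card / (m : ℝ) ^ s| ≤ exp (-(log Q ^ (1 / 8 : ℝ))) := by
  classical
  obtain ⟨N₀, hN₀⟩ := Pool.Agent.X121.GS.base_main hη hη1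
  refine ⟨N₀, fun Q H hQ hH1 hH2 A s m hA1 hA2 hm hmy E => ?_⟩
  have h := hN₀ Q H hQ hH1 hH2 A s m hA1 hA2 hm hmy E
  refine le_trans (le_of_eq ?_) h
  congr 3
  rw [← Set.ncard_coe_finset]
  congr 2
  ext q
  simp only [Set.mem_ofPred_eq, Finset.coe_filter, Finset.mem_Ioc, part]
  tauto

end Pool.Agent.Results.MP_b08cb4_nt.RandomBase
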